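import Pool.Agent.Work.MP_64ea0f_cs.InterfaceC

set_option autoImplicit false

/-! Block C_AXB (helper74): centralisers. -/

namespace Pool.CS

namespace CAXB

variable {Λ : Type} {G : SimpleGraph Λ}

/-- the action -/
noncomputable def mkLS (hACT : Stmt_C_ACT) (H : Per G) (M : Subgroup (RC G)) [M.Normal] :
    LS G (H.X M) where
  τ := H.step M
  inv := (hACT Λ G H M).1
  com := (hACT Λ G H M).2

theorem s_mem_word (H : Per G) (m : ℤ) : H.s m ∈ H.word := by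
  have perm : ∀ (n : ℤ) (i : ℤ), H.s (i + H.k * n) = H.s i := by
    intro n
    induction n using Int.induction_on with
    | zero => intro i; simp
    | succ n ih =>
      intro i
      rw [show i + (H.k : ℤ) * (n + 1) = i + H.k * n + H.k by ring, H.per, ih]
    | pred n ih =>
      intro i
      rw [← ih i, ← H.per (i + (H.k : ℤ) * (-n - 1))]
      congr 1
      ring
  have hk : (0 : ℤ) < H.k := by exact_mod_cast H.pos
  have h1 := Int.emod_nonneg (m - 1) hk.ne'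
  have h2 := Int.emod_lt_of_pos (m - 1) hk
  have h3 := Int.emod_add_mul_ediv (m - 1) H.k
  unfold Per.word
  rw [List.mem_map]
  refine ⟨((m - 1) % H.k).toNat, List.mem_range.2 (by omega), ?_⟩
  have e : ((((m - 1) % H.k).toNat : ℕ) : ℤ) = (m - 1) % H.k := Int.toNat_of_nonneg h1
  rw [e, ← perm ((m - 1) / H.k) ((m - 1) % H.k + 1)]
  congr 1
  linarith

theorem word_length (H : Per G) : H.word.length = H.k := by simp [Per.word]

theorem ok_one (M : Subgroup (RC G)) [M.Normal] (t : Λ) : Ok M t (1 : RC G ⧸ M) :=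
  ⟨1, Subgroup.one_mem _, rfl⟩

/-- letters which do not occur in the word do not change the cut -/
theorem r_fst (H : Per G) (M : Subgroup (RC G)) [M.Normal] (L : LS G (H.X M))
    (hL : ∀ t x, L.τ t x = H.step M t x) (K : Set Λ) (hK : ∀ b ∈ K, ∀ i, H.s i ≠ b)
    {c : RC G} (hc : c ∈ rsub G K) : ∀ v : H.X M, (L.r v c).1.1 = v.1.1 := by
  refine Subgroup.closure_induction (p := fun c _ => ∀ v : H.X M, (L.r v c).1.1 = v.1.1)
    ?_ ?_ ?_ ?_ hc
  · rintro _ ⟨b, hb, rfl⟩ v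
    rw [LS.r_rg, hL, H.step_not M b v]
    rintro ⟨⟨i, hi, -⟩, -⟩
    exact hK b hb i hi
  · intro v
    rw [LS.r_one]
  · intro x y _ _ hx hy v
    rw [LS.r_mul, hy, hx]
  · intro x _ hx v
    have h1 := hx (L.r v x⁻¹)
    rw [← LS.r_mul, inv_mul_cancel, LS.r_one] at h1
    exact h1.symm

end CAXB

open CAXB in
theorem c_axb_thm (hACT : Stmt_C_ACT) (hRUN : Stmt_C_RUN) (hFOL : Stmt_C_FOL)
    (hPTH : Stmt_C_PTH) (hSYM : Stmt_C_SYM) (hSYC : Stmt_C_SYC) (hSYR : Stmt_C_SYR)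
    (hLCA : Stmt_C_LCA) (hFIN : Stmt_C_FIN) (hCNT : Stmt_C_CNT) (hCN2 : Stmt_C_CN2)
    (hWIN : Stmt_C_WIN) (hWRD : Stmt_C_WRD) (hADJ : Stmt_C_ADJ) : Stmt_C_AXB := by
  classical
  intro Λ _ G H hiso
  obtain ⟨lc0, -, lcadd, -, sh0, -, -, -, -⟩ := hLCA Λ G H
  set LT : LS G (H.X (⊤ : Subgroup (RC G))) := mkLS hACT H ⊤ with hLT
  have hLTs : ∀ t x, LT.τ t x = H.step ⊤ t x := fun _ _ => rfl
  set LB : LS G (H.X (⊥ : Subgroup (RC G))) := mkLS hACT H ⊥ with hLB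
  have hLBs : ∀ t x, LB.τ t x = H.step ⊥ t x := fun _ _ => rfl
  obtain ⟨M', hM'n, hM'f, hM'⟩ := hFIN Λ G H ⊤ LT inferInstance hLTs
  set x0 : H.X (⊤ : Subgroup (RC G)) := (⟨Per.D0, H.cut_D0⟩, 1) with hx0
  have hex : ∀ z : M', ∃ f, H.LC f ∧ (LT.r x0 (z : RC G)).1.1 = H.sh f Per.D0 ∧
      (LT.r x0 (z : RC G)).2 = 1 := by
    intro z
    obtain ⟨f, h1, -, h3, h4⟩ := hM' z z.2 x0
    exact ⟨f, h1, h3, h4⟩
  choose F hFlc hF1 hF2 using hex
  have huniq : ∀ f g, H.LC f → H.LC g → H.sh f Per.D0 = H.sh g Per.D0 → f = g :=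
    (hCN2 Λ G H Per.D0 H.cut_D0).2
  have hFmul : ∀ z z' : M', F (z * z') = F z + F z' := by
    intro z z'
    refine huniq _ _ (hFlc _) (lcadd _ _ (hFlc z) (hFlc z')).1 ?_
    rw [← hF1, ← (lcadd _ _ (hFlc z) (hFlc z')).2, ← hF1 z', Subgroup.coe_mul, LS.r_mul]
    exact (hSYR Λ G H (H.sh (F z)) ((hSYM Λ G H).1 _ (hFlc z)) ⊤ LT hLTs (z' : RC G) x0
      (LT.r x0 (z : RC G)) (hF1 z) (hF2 z)).1
  let χ : M' →* Multiplicative (Λ → ℤ) :=
    MonoidHom.mk' (fun z => Multiplicative.ofAdd (F z)) (fun a b => by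
      rw [hFmul, ofAdd_add])
  refine ⟨M', χ, hM'f, ?_⟩
  intro g hgh hχ
  have hF0 : F g = 0 := by
    have : Multiplicative.ofAdd (F g) = 1 := hχ
    exact Multiplicative.ofAdd.injective this
  have hgD : (LT.r x0 (g : RC G)).1.1 = Per.D0 := by
    rw [hF1, hF0, sh0]
  -- the action on `X ⊥`
  set y0 : H.X (⊥ : Subgroup (RC G)) := (⟨Per.D0, H.cut_D0⟩, 1) with hy0
  obtain ⟨wg, hwg⟩ := wp_surj G (g : RC G)
  obtain ⟨p, -, hp2, hp3, -⟩ := hRUN Λ G H ⊥ LB hLBs wg y0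
  rw [← hwg] at hp2 hp3
  set y1 := LB.r y0 (g : RC G) with hy1
  -- the word
  have hword := hWRD Λ G H
  have hw1 := hFOL Λ G H ⊥ LB hLBs Per.D0 (H.tr Per.D0) H.word hword y0 rfl
    (fun t _ => ok_one ⊥ t)
  have hcomm : LB.r y1 (wp G H.word) = LB.r (LB.r y0 (wp G H.word)) (g : RC G) := by
    rw [hy1, ← LS.r_mul, ← LS.r_mul, hgh]
  have hsyr := hSYR Λ G H H.tr (hSYM Λ G H).2 ⊥ LB hLBs (g : RC G) y0
    (LB.r y0 (wp G H.word)) hw1.1 hw1.2
  rw [← hcomm, ← hy1] at hsyr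
  obtain ⟨q, hq1, hq2, -, hq4⟩ := hRUN Λ G H ⊥ LB hLBs H.word y1
  rw [hsyr.1] at hq2
  obtain ⟨hcut1, -, -, hle, -, -⟩ := hPTH Λ G H _ _ _ hq2
  have hcnt := (hCNT Λ G H y1.1.1 0 hcut1 lc0 (fun t => dvd_zero _)).1
  rw [sh0] at hcnt
  have hqw : q = H.word := hq1.eq_of_length_le (by rw [word_length]; exact hcnt.trans hle)
  have hOk : ∀ t ∈ H.word, Ok ⊥ t y1.2 := (hq4 hqw).2
  obtain ⟨x, hx1, hx2, -⟩ := hADJ Λ G ⊥ (by
    intro I x hx
    rw [Subgroup.mem_bot] at hx ⊢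
    rw [hx, map_one]) H.word y1.2 hOk
  -- the letters of `x`
  have hsub : {b | ∀ t ∈ H.word, b ∈ star G t} ⊆ {b | ∀ t ∈ H.word, G.Adj b t} := by
    intro b hb t ht
    have key : b ∉ H.word := by
      intro hbw
      obtain ⟨i, -, hi⟩ := List.mem_map.1 hbw
      have h1 := hiso (i + 1)
      unfold Per.iso at h1
      rw [hi] at h1
      push Not at h1
      obtain ⟨m, hm1, hm2⟩ := h1
      rcases hb (H.s m) (s_mem_word H m) with h2 | h2
      · exact hm1 h2.symm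
      · exact hm2 h2.symm
    rcases hb t ht with h2 | h2
    · exact absurd (h2 ▸ ht) key
    · exact h2.symm
  have hxK : x ∈ rsub G {b | ∀ t ∈ H.word, G.Adj b t} :=
    Subgroup.closure_mono (Set.image_mono hsub) hx1
  -- `g = wp p * x⁻¹`
  have hgx : (g : RC G) = wp G p * x⁻¹ := by
    have h1 : (QuotientGroup.mk x : RC G ⧸ (⊥ : Subgroup (RC G))) =
        QuotientGroup.mk ((g : RC G)⁻¹ * wp G p) := by
      rw [hx2, hp3, hy0]
      simp
    rw [QuotientGroup.eq, Subgroup.mem_bot] at h1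
    have h2 : x = (g : RC G)⁻¹ * wp G p := by
      rw [← inv_mul_eq_one]
      exact h1
    rw [h2]
    group
  have hD1 : y1.1.1 = Per.D0 := by
    have h1 := hFOL Λ G H ⊤ LT hLTs Per.D0 y1.1.1 p hp2 x0 rfl (fun t _ => ok_one ⊤ t)
    have h2 := r_fst H ⊤ LT hLTs {b | ∀ t ∈ H.word, G.Adj b t} (by
      intro b hb i hi
      have := hb (H.s i) (s_mem_word H i)
      rw [hi] at this
      exact G.loopless.irrefl b this) (Subgroup.inv_mem _ hxK) (LT.r x0 (wp G p))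
    rw [← LS.r_mul, ← hgx, hgD, h1.1] at h2
    exact h2.symm
  rw [hD1] at hp2
  obtain ⟨m₀, hm₀⟩ := hWIN Λ G H _ _ _ hp2
  have h3 := hm₀ m₀ le_rfl
  have h4 : wp G p = 1 := mul_left_cancel (h3.trans (mul_one _).symm)
  rw [hgx, h4, one_mul]
  exact Subgroup.inv_mem _ hxK

end Pool.CS
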