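import Pool.Agent.Work.MP_64ea0f_cs.InterfaceC

set_option autoImplicit false

/-! Block C_MIN (helper74): every nontrivial element is conjugate to the word of a `Per`. -/

namespace Pool.CS

namespace CMIN

variable {Λ : Type} {G : SimpleGraph Λ}

theorem wp_single (a : Λ) : wp G [a] = rg G a := by
  rw [wp_cons, wp_nil, mul_one]

theorem wp_reverse (w : List Λ) : wp G w.reverse = (wp G w)⁻¹ := by
  induction w with
  | nil => simp [wp_nil]
  | cons a w ih =>
    rw [List.reverse_cons, wp_append, ih, wp_single, wp_cons, mul_inv_rev, rg_inv]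

theorem rg_mem {I : Set Λ} {t : Λ} (h : t ∈ I) : rg G t ∈ rsub G I :=
  Subgroup.subset_closure ⟨t, h, rfl⟩

theorem exists_word {I : Set Λ} {g : RC G} (hg : g ∈ rsub G I) :
    ∃ w : List Λ, (∀ t ∈ w, t ∈ I) ∧ g = wp G w := by
  refine Subgroup.closure_induction (p := fun g _ => ∃ w : List Λ, (∀ t ∈ w, t ∈ I) ∧
    g = wp G w) ?_ ?_ ?_ ?_ hg
  · rintro _ ⟨t, ht, rfl⟩
    refine ⟨[t], fun u hu => ?_, (wp_single t).symm⟩
    rw [List.mem_singleton] at hu
    rw [hu]; exact ht
  · exact ⟨[], fun t ht => (List.not_mem_nil ht).elim, rfl⟩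
  · rintro x y _ _ ⟨w, h1, h2⟩ ⟨w', h1', h2'⟩
    refine ⟨w ++ w', fun t ht => ?_, by rw [wp_append, h2, h2']⟩
    rcases List.mem_append.1 ht with h | h
    · exact h1 t h
    · exact h1' t h
  · rintro x _ ⟨w, h1, h2⟩
    refine ⟨w.reverse, fun t ht => h1 t (List.mem_reverse.1 ht), ?_⟩
    rw [wp_reverse, h2]

/-- the letters at the places `i, …, i + n - 1` -/
def seg (s : ℤ → Λ) (i : ℤ) (n : ℕ) : List Λ := (List.range n).map (fun x : ℕ => s (i + x))

theorem seg_length (s : ℤ → Λ) (i : ℤ) (n : ℕ) : (seg s i n).length = n := by simp [seg]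

theorem seg_add (s : ℤ → Λ) (i : ℤ) (n m : ℕ) :
    seg s i (n + m) = seg s i n ++ seg s (i + n) m := by
  unfold seg
  rw [List.range_add, List.map_append, List.map_map]
  congr 1
  refine List.map_congr_left fun x _ => ?_
  simp only [Function.comp_apply]
  congr 1
  push_cast
  ring

theorem seg_one (s : ℤ → Λ) (i : ℤ) : seg s i 1 = [s i] := by
  simp [seg]

theorem mem_seg {s : ℤ → Λ} {i : ℤ} {n : ℕ} {t : Λ} (h : t ∈ seg s i n) :
    ∃ x : ℕ, x < n ∧ t = s (i + x) := by
  unfold seg at h
  rw [List.mem_map] at h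
  obtain ⟨x, hx, rfl⟩ := h
  exact ⟨x, List.mem_range.1 hx, rfl⟩

theorem wp_comm {w : List Λ} {t : Λ} (h : ∀ a ∈ w, G.Adj t a) :
    rg G t * wp G w = wp G w * rg G t := by
  induction w with
  | nil => rw [wp_nil, mul_one, one_mul]
  | cons a w ih =>
    rw [wp_cons, ← mul_assoc, rg_comm (h a (List.mem_cons_self)), mul_assoc,
      ih (fun b hb => h b (List.mem_cons_of_mem _ hb)), mul_assoc]

/-- the rotation -/
theorem rot {s : ℤ → Λ} {k : ℕ} (per : ∀ i, s (i + k) = s i) (i : ℤ) :
    wp G (seg s (i + 1) k) = (rg G (s i))⁻¹ * wp G (seg s i k) * rg G (s i) := by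
  have h1 : seg s i (k + 1) = seg s i k ++ [s i] := by
    rw [seg_add, seg_one, per]
  have h2 : seg s i (1 + k) = [s i] ++ seg s (i + 1) k := by
    rw [seg_add, seg_one]
    rfl
  rw [add_comm 1 k, h1] at h2
  have h3 := congrArg (wp G) h2
  rw [wp_append, wp_append, wp_single] at h3
  rw [mul_assoc, h3, ← mul_assoc, inv_mul_cancel, one_mul]

theorem conj {s : ℤ → Λ} {k : ℕ} {I : Set Λ} (per : ∀ i, s (i + k) = s i)
    (hI : ∀ i, s i ∈ I) (i : ℤ) :
    ∃ c ∈ rsub G I, wp G (seg s 1 k) = c * wp G (seg s i k) * c⁻¹ := by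
  induction i using Int.inductionOn' (b := 1) with
  | zero => exact ⟨1, Subgroup.one_mem _, by simp⟩
  | succ i _ ih =>
    obtain ⟨c, hc, h⟩ := ih
    refine ⟨c * rg G (s i), Subgroup.mul_mem _ hc (rg_mem (hI i)), ?_⟩
    rw [rot per i, h]
    group
  | pred i _ ih =>
    obtain ⟨c, hc, h⟩ := ih
    refine ⟨c * (rg G (s (i - 1)))⁻¹, Subgroup.mul_mem _ hc
      (Subgroup.inv_mem _ (rg_mem (hI _))), ?_⟩
    have h1 := rot (G := G) per (i - 1)
    rw [sub_add_cancel] at h1
    rw [h, h1]
    group

/-- the periodic word of a word of positive length -/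
def ps (w : List Λ) (hw : 0 < w.length) (i : ℤ) : Λ :=
  w.get ⟨((i - 1) % (w.length : ℤ)).toNat, by
    have h1 := Int.emod_nonneg (i - 1) (show (w.length : ℤ) ≠ 0 by omega)
    have h2 := Int.emod_lt_of_pos (i - 1) (show (0 : ℤ) < w.length by omega)
    omega⟩

theorem ps_per (w : List Λ) (hw : 0 < w.length) (i : ℤ) :
    ps w hw (i + w.length) = ps w hw i := by
  unfold ps
  congr 2
  rw [show i + (w.length : ℤ) - 1 = (i - 1) + w.length by ring, Int.add_emod_right]

theorem ps_mem (w : List Λ) (hw : 0 < w.length) (i : ℤ) : ps w hw i ∈ w :=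
  List.get_mem _ _

theorem seg_ps (w : List Λ) (hw : 0 < w.length) : seg (ps w hw) 1 w.length = w := by
  refine List.ext_getElem (seg_length _ _ _) fun n h1 h2 => ?_
  unfold seg
  rw [List.getElem_map, List.getElem_range]
  unfold ps
  rw [List.get_eq_getElem]
  congr 1
  have e : (1 + (n : ℤ) - 1) % (w.length : ℤ) = n := by
    rw [show 1 + (n : ℤ) - 1 = n by ring]
    exact Int.emod_eq_of_lt (by omega) (by exact_mod_cast h2)
  simp only [e, Int.toNat_natCast]

end CMIN

open CMIN in
theorem c_min_thm : Stmt_C_MIN := by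
  classical
  intro Λ G I g hg
  have hex : ∃ n : ℕ, ∃ a ∈ rsub G I, ∃ w : List Λ, w.length = n ∧ (∀ t ∈ w, t ∈ I) ∧
      g = a * wp G w * a⁻¹ := by
    obtain ⟨w, h1, h2⟩ := exists_word hg
    exact ⟨w.length, 1, Subgroup.one_mem _, w, rfl, h1, by simp [h2]⟩
  obtain ⟨a, ha, w, hwn, hwI, hgw⟩ := Nat.find_spec hex
  have hmin : ∀ (b : RC G) (w' : List Λ), b ∈ rsub G I → (∀ t ∈ w', t ∈ I) →
      g = b * wp G w' * b⁻¹ → w.length ≤ w'.length := by
    intro b w' hb hw' h
    rw [hwn]
    exact Nat.find_min' hex ⟨b, hb, w', rfl, hw', h⟩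
  rcases Nat.eq_zero_or_pos w.length with h0 | hpos
  · left
    rw [List.length_eq_zero_iff.1 h0, wp_nil, mul_one, mul_inv_cancel] at hgw
    exact hgw
  right
  obtain ⟨s, hs⟩ : ∃ s, s = ps w hpos := ⟨_, rfl⟩
  have per : ∀ i, s (i + w.length) = s i := by rw [hs]; exact ps_per w hpos
  have hsI : ∀ i, s i ∈ I := by intro i; rw [hs]; exact hwI _ (ps_mem w hpos i)
  have hseg : seg s 1 w.length = w := by rw [hs]; exact seg_ps w hpos
  have perm : ∀ (n : ℤ) (i : ℤ), s (i + w.length * n) = s i := by
    intro n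
    induction n using Int.induction_on with
    | zero => intro i; simp
    | succ n ih =>
      intro i
      rw [show i + (w.length : ℤ) * (n + 1) = i + w.length * n + w.length by ring, per, ih]
    | pred n ih =>
      intro i
      rw [← ih i, ← per (i + (w.length : ℤ) * (-n - 1))]
      congr 1
      ring
  -- the core of the proof
  have core : ∀ i j : ℤ, i < j → s i = s j → (∀ l, i < l → l < j → ¬ dep G (s l) (s i)) →
      i + w.length ≤ j := by
    intro i j hij hsij hno
    by_contra hlt
    push Not at hlt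
    obtain ⟨r, hr⟩ : ∃ r : ℕ, j = i + 1 + r := ⟨(j - i - 1).toNat, by omega⟩
    obtain ⟨q, hq⟩ : ∃ q : ℕ, w.length = (1 + r) + 1 + q := by
      refine ⟨w.length - (1 + r) - 1, by omega⟩
    have e1 : seg s i w.length = [s i] ++ seg s (i + 1) r ++ [s j] ++ seg s (j + 1) q := by
      rw [hq, seg_add, seg_add, seg_add, seg_one, seg_one]
      have e2 : i + ((1 + r : ℕ) : ℤ) = j := by push_cast; omega
      have e3 : i + ((1 + r + 1 : ℕ) : ℤ) = j + 1 := by push_cast; omega
      rw [e2, e3]
      push_cast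
      rfl
    have hA : ∀ b ∈ seg s (i + 1) r, G.Adj (s i) b := by
      intro b hb
      obtain ⟨x, hx, rfl⟩ := mem_seg hb
      have h1 := hno (i + 1 + x) (by omega) (by omega)
      unfold dep at h1
      push Not at h1
      exact h1.2.symm
    obtain ⟨c, hc, hcj⟩ := conj (G := G) per hsI i
    rw [hseg] at hcj
    have e4 : wp G (seg s i w.length) = wp G (seg s (i + 1) r ++ seg s (j + 1) q) := by
      rw [e1, wp_append, wp_append, wp_append, wp_append, wp_single, wp_single, ← hsij,
        wp_comm hA, mul_assoc (wp G (seg s (i + 1) r)), rg_mul_self, mul_one]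
    have h5 := hmin (a * c) (seg s (i + 1) r ++ seg s (j + 1) q) (Subgroup.mul_mem _ ha hc)
      (by
        intro t ht
        rcases List.mem_append.1 ht with h | h
        · obtain ⟨x, -, rfl⟩ := mem_seg h
          exact hsI _
        · obtain ⟨x, -, rfl⟩ := mem_seg h
          exact hsI _)
      (by
        rw [← e4, hgw, hcj]
        group)
    rw [List.length_append, seg_length, seg_length] at h5
    omega
  have red : ∀ i j, (¬ (∀ m, s m ≠ s i → G.Adj (s i) (s m)) ∨ (1 ≤ i ∧ i ≤ w.length)) →
    (¬ (∀ m, s m ≠ s j → G.Adj (s j) (s m)) ∨ (1 ≤ j ∧ j ≤ w.length)) → i < j → s i = s j →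
    ∃ l, (¬ (∀ m, s m ≠ s l → G.Adj (s l) (s m)) ∨ (1 ≤ l ∧ l ≤ w.length)) ∧ i < l ∧ l < j ∧
      dep G (s l) (s i) := by
    intro i j hi hj hij hsij
    by_contra hcon0
    have hcon : ∀ l, (¬ (∀ m, s m ≠ s l → G.Adj (s l) (s m)) ∨ (1 ≤ l ∧ l ≤ w.length)) →
        i < l → l < j → ¬ dep G (s l) (s i) :=
      fun l h1 h2 h3 h4 => hcon0 ⟨l, h1, h2, h3, h4⟩
    have hno : ∀ l, i < l → l < j → ¬ dep G (s l) (s i) := by
      intro l h1 h2 hd
      by_cases hiso : ∀ m, s m ≠ s i → G.Adj (s i) (s m)
      · -- isolated: everything is in the window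
        have hi' : 1 ≤ i := by
          rcases hi with h | h
          · exact absurd hiso h
          · exact h.1
        have hj' : j ≤ w.length := by
          rcases hj with h | h
          · rw [← hsij] at h
            exact absurd hiso h
          · exact h.2
        exact hcon l (Or.inr ⟨by omega, by omega⟩) h1 h2 hd
      · refine hcon l (Or.inl fun hl => ?_) h1 h2 hd
        by_cases hli : s l = s i
        · rw [hli] at hl
          exact hiso hl
        · rcases hd with hd | hd
          · exact hli hd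
          · exact hd (hl i (fun h => hli h.symm))
    have h1 := core i j hij hsij hno
    rcases h1.lt_or_eq with h2 | h2
    · exact hno (i + w.length) (by omega) h2 (Or.inl (per i))
    · -- all other letters commute with `s i`
      have hiso : ∀ m, s m ≠ s i → G.Adj (s i) (s m) := by
        intro m hm
        obtain ⟨n, hn1, hn2⟩ : ∃ n : ℤ, i ≤ m + w.length * n ∧ m + w.length * n < i + w.length := by
          refine ⟨-((m - i) / w.length), ?_, ?_⟩
          · have := Int.emod_nonneg (m - i) (show (w.length : ℤ) ≠ 0 by omega)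
            have e := Int.emod_add_mul_ediv (m - i) w.length
            linarith
          · have := Int.emod_lt_of_pos (m - i) (show (0 : ℤ) < w.length by omega)
            have e := Int.emod_add_mul_ediv (m - i) w.length
            linarith
        have h3 := perm n m
        have h4 : i ≠ m + w.length * n := by
          intro h5
          rw [← h5] at h3
          exact hm h3.symm
        have h5 := hno (m + w.length * n) (lt_of_le_of_ne hn1 h4) (by omega)
        rw [h3] at h5
        unfold dep at h5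
        push Not at h5
        exact h5.2.symm
      have hi' : 1 ≤ i := by
        rcases hi with h | h
        · exact absurd hiso h
        · exact h.1
      have hj' : j ≤ w.length := by
        rcases hj with h | h
        · rw [← hsij] at h
          exact absurd hiso h
        · exact h.2
      omega
  refine ⟨a, ha, ⟨w.length, hpos, s, per, red⟩, hsI, ?_⟩
  rw [hgw]
  have e : Per.word (⟨w.length, hpos, s, per, red⟩ : Per G) = seg s 1 w.length := by
    unfold Per.word seg
    refine List.map_congr_left fun x _ => ?_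
    simp only
    rw [add_comm]
  rw [e, hseg]

end Pool.CS
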